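import Pool.Agent.N513.CE.Stm
import Pool.Agent.N289.SA.Pair
import Pool.Agent.N540.SA.Main

/-!
# Project CE: the pair with a stabiliser generated by finitely many elements of order 257
-/

set_option autoImplicit false

namespace Pool.Agent.N289.CE

open Pool.Agent.N289.SA
open Pool.Agent.W661.RC (HasT)

noncomputable section

theorem p257 : Nat.Prime 257 := by norm_num

theorem el_pow (i j : Fin 6) (h : i ≠ j) (x : A) (n : ℕ) :
    (el i j h x : U) ^ n = el i j h (n • x) := by
  induction n with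
  | zero =>
    rw [pow_zero, zero_smul]
    apply Units.ext
    show (1 : Matrix (Fin 6) (Fin 6) A) = 1 + Matrix.single i j 0
    rw [Matrix.single_zero, add_zero]
  | succ n ih => rw [pow_succ, ih, succ_nsmul, el_add]

theorem smul257 (x : A) : (257 : ℕ) • x = 0 := by
  rw [← Nat.cast_smul_eq_nsmul F, show ((257 : ℕ) : F) = 0 from ZMod.natCast_self 257, zero_smul]

theorem el_pow257 (i j : Fin 6) (h : i ≠ j) (x : A) : (el i j h x : U) ^ 257 = 1 := by
  rw [el_pow, smul257]
  have := el_pow i j h x 0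
  rw [zero_smul, pow_zero] at this
  exact this.symm

/-- the line as a family of elements of the group -/
def l9g (p : Fin 9 × F) : GG := ⟨l9 p.1 p.2, kk_le (k_line p.1 p.2)⟩

/-- the generators of the group -/
def l14g (p : Fin 14 × F) : GG := ⟨l14 p.1 p.2, g_line p.1 p.2⟩

theorem l9g_pow (p : Fin 9 × F) : l9g p ^ 257 = 1 := by
  apply Subtype.ext
  exact el_pow257 (pi9 p.1) (pj9 p.1) (ne9 p.1) (p.2 • cf9 p.1)

open Classical in
theorem clos9 : Subgroup.closure ((Finset.univ.image l9g : Finset GG) : Set GG) =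
    KK.subgroupOf GG := by
  apply Subgroup.map_injective GG.subtype_injective
  rw [MonoidHom.map_closure, Subgroup.subgroupOf_map_subtype, inf_of_le_left kk_le, KK]
  congr 1
  ext x
  constructor
  · rintro ⟨y, hy, rfl⟩
    obtain ⟨p, -, rfl⟩ := Finset.mem_image.1 (Finset.mem_coe.1 hy)
    exact ⟨p.1, p.2, rfl⟩
  · rintro ⟨n, t, rfl⟩
    exact ⟨l9g (n, t), Finset.mem_coe.2 (Finset.mem_image_of_mem _ (Finset.mem_univ _)), rfl⟩

open Classical in
theorem clos14 : Subgroup.closure ((Finset.univ.image l14g : Finset GG) : Set GG) = ⊤ := by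
  apply Subgroup.map_injective GG.subtype_injective
  rw [MonoidHom.map_closure, ← MonoidHom.range_eq_map, Subgroup.range_subtype]
  conv_rhs => rw [GG]
  congr 1
  ext x
  constructor
  · rintro ⟨y, hy, rfl⟩
    obtain ⟨p, -, rfl⟩ := Finset.mem_image.1 (Finset.mem_coe.1 hy)
    exact ⟨p.1, p.2, rfl⟩
  · rintro ⟨n, t, rfl⟩
    exact ⟨l14g (n, t), Finset.mem_coe.2 (Finset.mem_image_of_mem _ (Finset.mem_univ _)), rfl⟩

theorem fg_GG : Group.FG GG := ⟨⟨_, clos14⟩⟩

theorem ns_GG : ¬ Pool.Agent.N540.SA.IsSofic (MulAction.toPermHom GG (GG ⧸ KK.subgroupOf GG)) := by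
  obtain ⟨g, hg1, k, hk1, hk2⟩ := not_norm
  refine Pool.Agent.N540.SA.not_sofic_action _ (KK.subgroupOf GG) hasT_GG hasT_sub mm_top g hg1 k
    hk1 hk2 ((1 : GG) : GG ⧸ KK.subgroupOf GG) ?_
  intro a
  show a • ((1 : GG) : GG ⧸ KK.subgroupOf GG) = _ ↔ _
  rw [MulAction.Quotient.smul_coe, smul_eq_mul, mul_one, eq_comm, QuotientGroup.eq, inv_one,
    one_mul]

open Classical in
/-- PAIR. -/
theorem t_pairp : Pool.Agent.N513.CE.S_PAIRP := by
  refine ⟨GG, inferInstance, KK.subgroupOf GG, Finset.univ.image l9g, 257, rf_GG, fg_GG, p257,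
    by norm_num, ?_, clos9, ns_GG⟩
  intro k hk
  obtain ⟨p, -, rfl⟩ := Finset.mem_image.1 hk
  exact l9g_pow p

end

end Pool.Agent.N289.CE
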