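import Pool.Agent.N139.MS.TT
import Pool.Agent.N513.CE.Stm

/-!
# Project CE: property (T) of `E_3` of the group algebra of a finitely generated group
-/

set_option autoImplicit false

open scoped InnerProductSpace

namespace Pool.Agent.N289.CE

open Pool.Agent.N44.NS
open Pool.Agent.Helper278.TB
open Pool.Agent.Helper455.KZ
open Pool.Agent.W661.RC (HasT)
open Pool.Agent.N139.MS.TT

section KT

variable {Γ : Type} [Group Γ] {K : Type} [Field K] [Fintype K]
variable {H : Type} [NormedAddCommGroup H] [InnerProductSpace ℂ H] [CompleteSpace H]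

theorem pair_est' {δ : ℝ} (h0 : 0 ≤ δ) (h1 : δ ≤ 1) (hK : ((Fintype.card K : ℝ))⁻¹ ≤ δ ^ 2)
    (π : Γ →* unitary (H →L[ℂ] H)) (u u' : K → Γ)
    (hu : ∀ a b, u (a + b) = u a * u b) (hu' : ∀ a b, u' (a + b) = u' a * u' b)
    (hp : HP u u') (v : H) :
    0 ≤ 2 * (⟪co (avg (uop π u)) v, co (avg (uop π u')) v⟫_ℂ).re +
      δ * (‖co (avg (uop π u)) v‖ ^ 2 + ‖co (avg (uop π u')) v‖ ^ 2) := by
  obtain ⟨z, hz, hrel, h1', h2⟩ := hp
  refine heis_pair (uop_rep π u hu) (uop_rep π u' hu') (uop_rep π z hz) ?_ ?_ ?_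
    δ h0 h1 hK v
  · intro a b x
    show (π (u a) : H →L[ℂ] H) ((π (u' b) : H →L[ℂ] H) x) = (π (u' b) : H →L[ℂ] H)
      ((π (u a) : H →L[ℂ] H) ((π (z (a * b)) : H →L[ℂ] H) x))
    rw [← uop_mul, ← uop_mul, ← uop_mul, hrel, mul_assoc]
  · intro a b x
    show (π (z a) : H →L[ℂ] H) ((π (u b) : H →L[ℂ] H) x) = (π (u b) : H →L[ℂ] H)
      ((π (z a) : H →L[ℂ] H) x)
    rw [← uop_mul, ← uop_mul, h1']
  · intro a b x
    show (π (z a) : H →L[ℂ] H) ((π (u' b) : H →L[ℂ] H) x) = (π (u' b) : H →L[ℂ] H)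
      ((π (z a) : H →L[ℂ] H) x)
    rw [← uop_mul, ← uop_mul, h2]

end KT

/-- **Property (T)** for groups generated by finitely many lines over a large finite field, any two
of which form a Heisenberg pair. -/
theorem hasT_many {Γ : Type} [Group Γ] {K : Type} [Field K] [Fintype K] {ι : Type} [Fintype ι]
    [Nonempty ι] (hK : (2 * Fintype.card ι) ^ 2 ≤ Fintype.card K) (u : ι → K → Γ)
    (hadd : ∀ i a b, u i (a + b) = u i a * u i b)
    (pair : ∀ i j, i ≠ j → HP (u i) (u j) ∨ HP (u j) (u i))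
    (gen : Subgroup.closure {g | ∃ i t, g = u i t} = ⊤) : HasT Γ := by
  classical
  have hι : 0 < Fintype.card ι := Fintype.card_pos
  set n : ℝ := (Fintype.card ι : ℝ) with hn
  have hn1 : (1 : ℝ) ≤ n := by rw [hn]; exact_mod_cast hι
  set δ : ℝ := 1 / (2 * n) with hδ
  have hδ0 : 0 < δ := by positivity
  have hδ1 : δ ≤ 1 := by
    rw [hδ, div_le_one (by positivity)]
    linarith
  have hKδ : ((Fintype.card K : ℝ))⁻¹ ≤ δ ^ 2 := by
    rw [hδ, div_pow, one_pow, ← one_div]
    apply one_div_le_one_div_of_le (by positivity)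
    rw [hn]
    exact_mod_cast hK
  have hnδ : (n - 1) * δ ≤ 1 / 2 := by
    have h1 : n * δ = 1 / 2 := by
      rw [hδ]; field_simp
    nlinarith
  have hnδ0 : 0 ≤ (n - 1) * δ := mul_nonneg (by linarith) hδ0.le
  have hc : (0 : ℝ) < 1 - (n - 1) * δ := by linarith
  have hc1 : 1 - (n - 1) * δ ≤ 1 := by linarith
  intro H _ _ _ π hπ
  obtain ⟨v, hv, hsm⟩ := hπ ((Finset.univ : Finset (ι × K)).image (fun q => u q.1 q.2))
    (thr n (1 - (n - 1) * δ)) (thr_pos _ _ hn1 hc)
  let Q : ι → H → H := fun i => co (avg (uop π (u i)))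
  have hrep : ∀ i, URep (uop π (u i)) := fun i => uop_rep π _ (hadd i)
  have hQ : ∀ i, Proj (Q i) := fun i => (hrep i).avg_proj.co
  have hpair : ∀ i j, i ≠ j → ∀ v, 0 ≤ 2 * (⟪Q i v, Q j v⟫_ℂ).re +
      δ * (‖Q i v‖ ^ 2 + ‖Q j v‖ ^ 2) := by
    intro i j hij v
    rcases pair i j hij with h | h
    · exact pair_est' hδ0.le hδ1 hKδ π (u i) (u j) (hadd i) (hadd j) h v
    · have := pair_est' hδ0.le hδ1 hKδ π (u j) (u i) (hadd j) (hadd i) h v
      have e : (⟪Q i v, Q j v⟫_ℂ).re = (⟪Q j v, Q i v⟫_ℂ).re := by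
        rw [← inner_conj_symm, Complex.conj_re]
      rw [e, add_comm (‖Q i v‖ ^ 2)]
      exact this
  have hDE : ∀ v, (1 - (n - 1) * δ) * EE Q v ≤ ‖DD Q v‖ ^ 2 := by
    intro v
    exact DD_lower Q δ hpair v
  have hv' : ∀ i, ‖Q i v‖ ≤ thr (Fintype.card ι : ℝ) (1 - (n - 1) * δ) := by
    intro i
    refine co_avg_small v _ fun a => ?_
    exact (hsm (u i a) (Finset.mem_image.mpr ⟨(i, a), Finset.mem_univ _, rfl⟩)).le
  obtain ⟨w, hw, hwi⟩ := exists_invariant hι Q hQ _ hc hc1 hDE v hv hv'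
  refine ⟨w, hw, ?_⟩
  let St : Subgroup Γ :=
    { carrier := {g | (π g : H →L[ℂ] H) w = w}
      one_mem' := by simp
      mul_mem' := by
        intro a b ha hb
        show (π (a * b) : H →L[ℂ] H) w = w
        have ha' : (π a : H →L[ℂ] H) w = w := ha
        have hb' : (π b : H →L[ℂ] H) w = w := hb
        rw [uop_mul, hb', ha']
      inv_mem' := by
        intro a ha
        show (π a⁻¹ : H →L[ℂ] H) w = w
        have ha' : (π a : H →L[ℂ] H) w = w := ha
        have h1 : (π a⁻¹ : H →L[ℂ] H) ((π a : H →L[ℂ] H) w) = w := by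
          rw [← uop_mul, inv_mul_cancel]; simp
        rwa [ha'] at h1 }
  have hle : Subgroup.closure {g | ∃ i t, g = u i t} ≤ St := by
    rw [Subgroup.closure_le]
    rintro _ ⟨i, t, rfl⟩
    show (π (u i t) : H →L[ℂ] H) w = w
    have h1 : avg (uop π (u i)) w = w := by
      have : w - avg (uop π (u i)) w = 0 := hwi i
      rw [sub_eq_zero] at this
      exact this.symm
    have h3 := (hrep i).fix_avg t w
    rw [h1] at h3
    exact h3
  intro g
  rw [gen] at hle
  exact hle (Subgroup.mem_top g)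

section lines

variable {K : Type} [Field K] {A : Type} [Ring A] [Algebra K A] {J : Type}

/-- the coefficients of the lines -/
def avm (g : J → A) : Option J → A
  | none => 1
  | some t => g t

/-- the lines -/
def ulm (g : J → A) (n : Fin 3 × Option J) (c : K) : E3 A :=
  eE n.1 (n.1 + 1) (q1 _) (c • avm g n.2)

theorem pairsm (g : J → A) (m n : Fin 3 × Option J) :
    HP (ulm g m : K → E3 A) (ulm g n) ∨ HP (ulm g n : K → E3 A) (ulm g m) := by
  rcases cases3 m.1 n.1 with h | h | h
  · exact Or.inl (pair_same _ _ h _ _)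
  · exact Or.inl (pair_next _ _ h _ _)
  · exact Or.inr (pair_next _ _ h _ _)

theorem pos6 (i j : Fin 3) (h : i ≠ j) : j = i + 1 ∨ j = i + 1 + 1 := by
  revert i j
  decide

theorem genm (g : J → A) (hg : Algebra.adjoin K (Set.range g) = ⊤) :
    Subgroup.closure {x | ∃ (n : Fin 3 × Option J) (t : K), x = ulm g n t} = ⊤ := by
  set S : Subgroup (E3 A) := Subgroup.closure {x | ∃ (n : Fin 3 × Option J) (t : K),
    x = ulm g n t} with hS
  have hl : ∀ (q : Fin 3) (o : Option J) (t : K), eE q (q + 1) (q1 _) (t • avm g o) ∈ S :=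
    fun q o t => Subgroup.subset_closure ⟨(q, o), t, rfl⟩
  have hall1 : ∀ (o : Option J) (t : K) (i j : Fin 3) (h : i ≠ j),
      eE i j h (t • avm g o) ∈ S := by
    intro o t i j h
    rcases pos6 i j h with rfl | rfl
    · exact hl i o t
    · have h1 := hl i o t
      have h2 := hl (i + 1) none 1
      have h3 := mem_mul S (q1 i) (q1 (i + 1)) h h1 h2
      rwa [one_smul, show avm g none = 1 from rfl, mul_one] at h3
  have hall : ∀ a : A, ∀ (i j : Fin 3) (h : i ≠ j), eE i j h a ∈ S := by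
    intro a
    have ha : a ∈ Algebra.adjoin K (Set.range g) := by
      rw [hg]
      exact Algebra.mem_top
    induction ha using Algebra.adjoin_induction with
    | mem x hx =>
      obtain ⟨t, rfl⟩ := hx
      intro i j h
      have := hall1 (some t) 1 i j h
      rwa [one_smul] at this
    | algebraMap r =>
      intro i j h
      have := hall1 none r i j h
      rwa [show avm g none = 1 from rfl, Algebra.smul_def, mul_one] at this
    | add x y _ _ hx hy =>
      intro i j h
      rw [eE_add]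
      exact mul_mem (hx i j h) (hy i j h)
    | mul x y _ _ hx hy =>
      intro i j h
      obtain ⟨l, hil, hlj⟩ := third i j
      exact mem_mul S hil hlj h (hx i l hil) (hy l j hlj)
  rw [eq_top_iff]
  rintro ⟨x, hx⟩ -
  refine Subgroup.closure_induction (p := fun x hx => (⟨x, hx⟩ : E3 A) ∈ S) ?_ ?_ ?_ ?_ hx
  · rintro x ⟨i, j, h, a, rfl⟩
    exact hall a i j h
  · exact one_mem _
  · intro x y hx hy h1 h2
    exact mul_mem h1 h2
  · intro x hx h1
    exact inv_mem h1

end lines

/-- **Property (T)** of `E_3(A)`, `A` a finitely generated algebra over a large finite field -/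
theorem hasT_E3 {K : Type} [Field K] [Fintype K] {A : Type} [Ring A] [Algebra K A] {J : Type}
    [Fintype J] (g : J → A) (hK : (2 * Fintype.card (Fin 3 × Option J)) ^ 2 ≤ Fintype.card K)
    (hg : Algebra.adjoin K (Set.range g) = ⊤) : HasT (E3 A) :=
  hasT_many hK (ulm g) (fun n a b => by unfold ulm; rw [add_smul, eE_add])
    (fun m n _ => pairsm g m n) (genm g hg)

/-- TEL. -/
theorem t_tel : Pool.Agent.N513.CE.S_TEL := by
  classical
  intro X _ hX
  obtain ⟨S, hS⟩ := hX.1
  set T : Finset X := S ∪ S.image (fun x => x⁻¹) with hT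
  obtain ⟨q, hq, hqp⟩ := Nat.exists_infinite_primes ((2 * Fintype.card (Fin 3 × Option T)) ^ 2)
  refine ⟨q, hqp, ?_⟩
  haveI : Fact q.Prime := ⟨hqp⟩
  refine hasT_E3 (K := ZMod q) (J := T) (fun t => MonoidAlgebra.of (ZMod q) X t.1) ?_ ?_
  · rw [ZMod.card]
    exact hq
  · set R := Algebra.adjoin (ZMod q) (Set.range fun t : T => MonoidAlgebra.of (ZMod q) X t.1)
      with hR
    have h1 : ∀ x : X, MonoidAlgebra.of (ZMod q) X x ∈ R := by
      intro x
      have hx : x ∈ Submonoid.closure ((S : Set X) ∪ (S : Set X)⁻¹) := by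
        rw [← Subgroup.closure_toSubmonoid, hS]
        exact Subgroup.mem_top x
      induction hx using Submonoid.closure_induction with
      | mem x hx =>
        refine Algebra.subset_adjoin ⟨⟨x, ?_⟩, rfl⟩
        rw [hT, Finset.mem_union, Finset.mem_image]
        rcases hx with hx | hx
        · exact Or.inl hx
        · exact Or.inr ⟨x⁻¹, hx, inv_inv x⟩
      | one => rw [map_one]; exact one_mem _
      | mul x y _ _ hx hy => rw [map_mul]; exact mul_mem hx hy
    rw [eq_top_iff]
    rintro a -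
    induction a using MonoidAlgebra.induction_on with
    | of g => exact h1 g
    | add f g hf hg => exact add_mem hf hg
    | smul c f hf => exact R.smul_mem hf c

end Pool.Agent.N289.CE
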